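import Mathlib

namespace Pool.Agent.Results.MP_90db2d_al.KnitTwo

/-- Every element has exactly one inverse. -/
def IsInverseSemigroup (S : Type) [Semigroup S] : Prop :=
  ∀ x : S, ∃! y : S, x * y * x = x ∧ y * x * y = y

/-- A left path of length `n` in the commuting graph: pairwise distinct non-central vertices,
consecutive ones commute, the ends differ, and `x₁ xᵢ = xₙ xᵢ` for all `i`. -/
def IsLeftPath {S : Type} [Semigroup S] {n : ℕ} (x : Fin (n + 1) → S) : Prop :=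
  (∀ i, ¬ ∀ y, x i * y = y * x i) ∧ Function.Injective x ∧
    (∀ i : Fin n, x i.castSucc * x i.succ = x i.succ * x i.castSucc) ∧
    x 0 ≠ x (Fin.last n) ∧ ∀ i, x 0 * x i = x (Fin.last n) * x i

/-- The lengths of left paths. -/
def lengths (S : Type) [Semigroup S] : Set ℕ := {n | ∃ x : Fin (n + 1) → S, IsLeftPath x}

/-- Multiplication table of the inverse semigroup generated by the partial injection
`0 ↦ 1 ↦ 2` together with a 5-cycle. -/
def tab : Fin 18 → Fin 18 → Fin 18 :=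
  ![![2,3,7,8,0,9,2,14,11,15,13,7,6,8,16,17,17,11],
    ![4,5,6,1,10,11,12,11,13,5,7,17,14,10,7,9,14,16],
    ![7,8,14,11,2,15,7,16,7,17,8,14,2,11,17,11,11,7],
    ![0,9,2,3,13,7,6,7,8,9,14,11,16,13,14,15,16,17],
    ![6,1,11,13,4,5,6,7,17,9,10,11,12,13,14,16,16,17],
    ![10,11,12,5,7,17,14,17,10,11,11,16,7,7,11,5,7,14],
    ![11,13,7,17,6,9,11,14,11,16,13,7,6,17,16,17,17,11],
    ![14,11,16,7,7,17,14,17,14,11,11,16,7,7,11,7,7,14],
    ![2,15,7,8,8,14,2,14,11,15,16,7,17,8,16,17,17,11],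
    ![13,7,6,9,14,11,16,11,13,7,7,17,14,14,7,9,14,16],
    ![12,5,17,10,10,11,12,11,16,5,7,17,14,10,7,14,14,16],
    ![7,17,14,11,11,16,7,16,7,17,17,14,11,11,17,11,11,7],
    ![17,10,11,16,12,5,17,7,17,14,10,11,12,16,14,16,16,17],
    ![6,9,11,13,13,7,6,7,17,9,14,11,16,13,14,16,16,17],
    ![16,7,17,14,14,11,16,11,16,7,7,17,14,14,7,14,14,16],
    ![8,14,2,15,16,7,17,7,8,14,14,11,16,16,14,15,16,17],
    ![17,14,11,16,16,7,17,7,17,14,14,11,16,16,14,16,16,17],
    ![11,16,7,17,17,14,11,14,11,16,16,7,17,17,16,17,17,11]]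

/-- The carrier. -/
def S : Type := Fin 18

instance : Fintype S := inferInstanceAs (Fintype (Fin 18))
instance : DecidableEq S := inferInstanceAs (DecidableEq (Fin 18))

lemma tab_assoc : ∀ x y z, tab (tab x y) z = tab x (tab y z) := by decide +kernel

instance : Semigroup S where
  mul := tab
  mul_assoc := tab_assoc

lemma inv : ∀ x, ∃ y, (tab (tab x y) x = x ∧ tab (tab y x) y = y) ∧
    ∀ z, tab (tab x z) x = x ∧ tab (tab z x) z = z → z = y := by decide +kernel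

lemma no_one : ∀ x y, x ≠ y → tab x y = tab y x → tab x x = tab y x → tab x y = tab y y →
    (∀ z, tab x z = tab z x) ∨ ∀ z, tab y z = tab z y := by decide +kernel

lemma two : (∀ i, ¬ ∀ y, tab (![8, 2, 0] i) y = tab y (![8, 2, 0] i)) ∧
    Function.Injective (![8, 2, 0] : Fin 3 → Fin 18) ∧
    (∀ i : Fin 2, tab (![8, 2, 0] i.castSucc) (![8, 2, 0] i.succ) =
      tab (![8, 2, 0] i.succ) (![8, 2, 0] i.castSucc)) ∧
    (![8, 2, 0] : Fin 3 → Fin 18) 0 ≠ ![8, 2, 0] (Fin.last 2) ∧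
    ∀ i, tab (![8, 2, 0] 0) (![8, 2, 0] i) = tab (![8, 2, 0] (Fin.last 2)) (![8, 2, 0] i) := by
  decide +kernel

theorem result : ∃ (S : Type) (_ : Semigroup S), Finite S ∧ IsInverseSemigroup S ∧
    (¬ ∀ x y : S, x * y = y * x) ∧ IsLeast (lengths S) 2 := by
  refine ⟨S, inferInstance, inferInstance, inv, fun h => two.1 0 fun y => h _ y,
    ⟨(![8, 2, 0] : Fin 3 → Fin 18), two⟩, ?_⟩
  rintro n ⟨x, h1, -, h3, h4, h5⟩
  rcases n with _ | _ | n
  · exact absurd rfl h4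
  · rcases no_one (x 0) (x 1) h4 (h3 0) (h5 0) (h5 1) with h | h
    exacts [absurd h (h1 0), absurd h (h1 1)]
  · omega

end Pool.Agent.Results.MP_90db2d_al.KnitTwo
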